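import Pool.Agent.N110.CC.GStm

/-!
The class of a hyperplane section is an order unit (UNIT of project CC of helper110). By helper249.
-/

set_option autoImplicit false
set_option linter.unusedSectionVars false

open FF Pool.Agent.W602.GT Pool.Agent.Y172 Pool.Agent.R887
open Pool.Agent.N110 Pool.Agent.N110.PA Pool.Agent.N110.NV Pool.Agent.N492.PA
open Pool.Agent.N110.CC

namespace Pool.Agent.N249.CC

theorem toR_cQ {K : Type} [Field K] [Algebra ℂ K] {ρ : ℕ} (c : Place ℂ K → Fin ρ → ℤ)
    (P : Place ℂ K) : toR (cQ c P) = rcl c P := by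
  funext i
  simp [toR, cQ, rcl]

theorem leafUNIT : S_UNIT := by
  intro K _ _ N ρ y hy c hc i hi Hy hHe hH
  classical
  obtain ⟨h, hhdef⟩ : ∃ h : Fin ρ → ℝ, h = toR (cls y (cQ c) Hy) := ⟨_, rfl⟩
  have hh : h ∈ closure (effSet y (cQ c)) := by
    rw [hhdef]
    exact subset_closure (eff_mem hHe)
  obtain ⟨B, hB⟩ : ∃ B : (Fin ρ → ℝ) → Prop, ∀ x, B x ↔ ∃ t : ℝ, 0 ≤ t ∧
      t • h - x ∈ closure (effSet y (cQ c)) ∧ t • h + x ∈ closure (effSet y (cQ c)) :=
    ⟨_, fun _ => Iff.rfl⟩
  have B0 : B 0 := by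
    rw [hB]
    refine ⟨0, le_rfl, ?_, ?_⟩
    · have := clo_smul hh (le_refl (0 : ℝ))
      simpa using this
    · have := clo_smul hh (le_refl (0 : ℝ))
      simpa using this
  have Badd : ∀ x z, B x → B z → B (x + z) := by
    intro x z hx hz
    rw [hB] at hx hz ⊢
    obtain ⟨t, ht, h1, h2⟩ := hx
    obtain ⟨s, hs, h3, h4⟩ := hz
    refine ⟨t + s, add_nonneg ht hs, ?_, ?_⟩
    · have := clo_add h1 h3
      have e : t • h - x + (s • h - z) = (t + s) • h - (x + z) := by
        rw [add_smul]; abel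
      rwa [e] at this
    · have := clo_add h2 h4
      have e : t • h + x + (s • h + z) = (t + s) • h + (x + z) := by
        rw [add_smul]; abel
      rwa [e] at this
  have Bneg : ∀ x, B x → B (-x) := by
    intro x hx
    rw [hB] at hx ⊢
    obtain ⟨t, ht, h1, h2⟩ := hx
    refine ⟨t, ht, ?_, ?_⟩
    · rwa [sub_neg_eq_add]
    · rwa [← sub_eq_add_neg]
  have Bsmul0 : ∀ (r : ℝ) x, 0 ≤ r → B x → B (r • x) := by
    intro r x hr hx
    rw [hB] at hx ⊢
    obtain ⟨t, ht, h1, h2⟩ := hx
    refine ⟨r * t, mul_nonneg hr ht, ?_, ?_⟩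
    · have := clo_smul h1 hr
      rwa [smul_sub, smul_smul] at this
    · have := clo_smul h2 hr
      rwa [smul_add, smul_smul] at this
  have Bsmul : ∀ (r : ℝ) x, B x → B (r • x) := by
    intro r x hx
    rcases le_total 0 r with hr | hr
    · exact Bsmul0 r x hr hx
    · have h1 := Bneg _ (Bsmul0 (-r) x (neg_nonneg.2 hr) hx)
      rwa [neg_smul, neg_neg] at h1
  have Brcl : ∀ P, IsPrimeDivisor y P → B (rcl c P) := by
    intro P0 hP0
    obtain ⟨g, s, hg, hgs⟩ := dom hy hi hHe hH ⟨P0, hP0⟩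
    have hfin1 : Fin0 y (fun P => ((P.ord g : ℤ) : ℚ)) := by
      refine (finite_ord hy hg).subset ?_
      rintro P ⟨hP, h1⟩
      refine ⟨hP, fun h2 => h1 ?_⟩
      show ((P.ord g : ℤ) : ℚ) = 0
      rw [h2, Int.cast_zero]
    have hfin2 : Fin0 y (fun P => (s : ℚ) * Hy P) := Fin0.smul (y := y) hHe.2 _
    have hEeff : Effective y (fun P => (((P.ord g : ℤ) : ℚ) + (s : ℚ) * Hy P) -
        (if P = P0 then (1 : ℚ) else 0)) := by
      constructor
      · intro P hP
        have e1 := hgs P hP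
        show 0 ≤ (((P.ord g : ℤ) : ℚ) + (s : ℚ) * Hy P) - (if P = P0 then (1 : ℚ) else 0)
        linarith
      · exact Fin0.sub (Fin0.add hfin1 hfin2) (fin_single _ _)
    have hclsE : cls y (cQ c) (fun P => (((P.ord g : ℤ) : ℚ) + (s : ℚ) * Hy P) -
        (if P = P0 then (1 : ℚ) else 0)) = (s : ℚ) • cls y (cQ c) Hy - cQ c P0 := by
      rw [cls_sub (Fin0.add hfin1 hfin2) (fin_single _ _), cls_add hfin1 hfin2,
        princ hc.numClasses hg, cls_smul, cls_single hP0, zero_add, one_smul]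
    have hx : rcl c P0 ∈ closure (effSet y (cQ c)) := by
      refine subset_closure ?_
      have h1 := eff_mem (c := cQ c) (single_eff (⟨P0, hP0⟩ : QQ y))
      rwa [cls_single hP0, one_smul, toR_cQ] at h1
    rw [hB]
    refine ⟨s, Nat.cast_nonneg _, ?_, ?_⟩
    · have h1 := subset_closure (eff_mem (c := cQ c) hEeff)
      rw [hclsE, toR_sub, toR_smul, toR_cQ, ← hhdef] at h1
      simpa using h1
    · exact clo_add (clo_smul hh (Nat.cast_nonneg _)) hx
  have Bint : ∀ z : Fin ρ → ℤ, B (fun i => (z i : ℝ)) := by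
    intro z
    have hz := hc.generate z
    induction hz using AddSubgroup.closure_induction with
    | mem x hx =>
      obtain ⟨P, hP, rfl⟩ := hx
      exact Brcl P hP
    | zero =>
      have : (fun i => (((0 : Fin ρ → ℤ) i : ℤ) : ℝ)) = 0 := by
        funext i; simp
      rw [this]
      exact B0
    | add x z _ _ h1 h2 =>
      have : (fun i => (((x + z : Fin ρ → ℤ) i : ℤ) : ℝ)) =
          (fun i => (x i : ℝ)) + fun i => (z i : ℝ) := by
        funext i; simp
      rw [this]
      exact Badd _ _ h1 h2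
    | neg x _ h1 =>
      have : (fun i => (((-x : Fin ρ → ℤ) i : ℤ) : ℝ)) = - fun i => (x i : ℝ) := by
        funext i; simp
      rw [this]
      exact Bneg _ h1
  have Bsum : ∀ (s : Finset (Fin ρ)) (f : Fin ρ → Fin ρ → ℝ), (∀ j, B (f j)) →
      B (∑ j ∈ s, f j) := by
    intro s f hf
    induction s using Finset.induction_on with
    | empty => simpa using B0
    | insert a s ha ih =>
      rw [Finset.sum_insert ha]
      exact Badd _ _ (hf a) ih
  intro x
  have hx : B x := by
    have e : x = ∑ j, x j • (Pi.single j (1 : ℝ) : Fin ρ → ℝ) := by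
      funext k
      simp [Finset.sum_apply, Pi.single_apply]
    rw [e]
    refine Bsum _ _ fun j => Bsmul _ _ ?_
    have h1 := Bint (Pi.single j 1)
    have e2 : (fun i => (((Pi.single j 1 : Fin ρ → ℤ) i : ℤ) : ℝ)) = Pi.single j (1 : ℝ) := by
      funext k
      by_cases hk : k = j
      · subst hk; simp
      · simp [hk]
    rwa [e2] at h1
  rw [hB] at hx
  obtain ⟨t, ht, h1, -⟩ := hx
  rw [← hhdef]
  exact ⟨t, ht, h1⟩

end Pool.Agent.N249.CC
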